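import Pool.Agent.H96Z.BG.Final

set_option autoImplicit false

/-!
# Basic right-cell equivalences, shifting case: a counterexample

Let `(W, S)` be of type `A~_1 × A~_1 × A~_1` with generators `a_j, b_j` (`j = 0, 1, 2`).  Take
`w = v_0 = a_0 a_1 a_2`, `y = e`, `v_1 = b_1 b_2`.  The factorisation `(w, v_1, e)` of `w'' = w v_1`
is not maximal (`a_0` can be absorbed), `a(w'') = 3 = a(v_0)`, and `μ(w, w'' v_{02}⁻¹) = 0` for
every factorisation `v_0 = v_{01}.v_{02}.v_{03}`.
-/

namespace Pool.Agent.Results.MP_fcc599_al.MuVanishes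

open Module Polynomial Pool.Agent.Helper703.KL Pool.Agent.H96Z.BG

/-- First part: the Hecke algebra of type `A~_1 × A~_1 × A~_1`, its bar involution, its
Kazhdan-Lusztig polynomials and basis exist.  Second part: for every Coxeter system of this type
and all such data, there are `w, y, v_0, v_1, w''` satisfying all the hypotheses of the question
such that `μ(w, w'' v_{02}⁻¹) = 0` whenever `v_0 = v_{01}.v_{02}.v_{03}`. -/
theorem result :
    (∃ (H : Type) (_ : Ring H) (_ : Algebra A H) (T : Basis cube.Group A H) (bar : H →+* H)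
      (P : cube.Group → cube.Group → ℤ[X]) (C : Basis cube.Group A H),
        IsHecke cube.toCoxeterSystem T ∧ IsBar cube.toCoxeterSystem T bar ∧
        IsKLData cube.toCoxeterSystem T bar P C) ∧
    (∀ (W : Type) [Group W] (cs : CoxeterSystem cube W) (H : Type) [Ring H] [Algebra A H]
      (T : Basis W A H) (bar : H →+* H) (P : W → W → ℤ[X]) (C : Basis W A H),
      IsHecke cs T → IsBar cs T bar → IsKLData cs T bar P C →
      ∃ w y v₀ v₁ w'' : W,
        Red2 cs w y v₀ ∧ MaxFact cs w y v₀ 1 ∧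
        Red2 cs w'' w v₁ ∧ (IsDist cs P C v₁ ∧ FinPar cs v₁) ∧ ¬ MaxFact cs w'' w v₁ 1 ∧
        aFn C w'' = aFn C v₀ ∧
        ∀ v₀₁ v₀₂ v₀₃ : W, Red3 cs v₀ v₀₁ v₀₂ v₀₃ → muKL cs P w (w'' * v₀₂⁻¹) = 0) := by
  refine ⟨?_, ?_⟩
  · obtain ⟨T, bar, P, C, h⟩ := exists_data cube.toCoxeterSystem
    exact ⟨HT cube.toCoxeterSystem, inferInstance, inferInstance, T, bar, P, C, h⟩
  · intro W _ cs H _ _ T bar P C hT hb hK
    have hw := len_w (cs := cs)
    have hu := len_u (cs := cs)
    have hwu := len_wu (cs := cs)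
    refine ⟨cs.wordProd l0, 1, cs.wordProd l0, cs.wordProd l1,
      cs.wordProd l0 * cs.wordProd l1, ⟨by simp, by simp⟩, ⟨⟨⟨by simp, by simp⟩, finPar_w⟩, ?_⟩,
      ⟨rfl, by omega⟩, ⟨dist_u hT hb hK, finPar_u⟩, ?_, ?_, ?_⟩
    · rintro ⟨x', u', y', p, r, _, h2, h3, _, h5⟩
      have h6 := h2.2
      have h7 := h3.2
      rw [cs.length_one] at h6 h7
      omega
    · rintro ⟨_, h⟩
      apply h
      have hw' : ∀ l l' : List G, posL l = posL l' → cs.wordProd l = cs.wordProd l' := by
        intro l l' h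
        apply pos_inj cs
        rw [pos_word, pos_word, h]
      refine ⟨cs.wordProd [(1, false), (2, false)], cs.wordProd ((0, false) :: l1), 1,
        cs.wordProd [(0, false)], 1, ⟨⟨?_, ?_⟩, ?_⟩, ⟨?_, ?_⟩, ⟨by simp, by simp⟩, ⟨?_, ?_⟩, ?_⟩
      · rw [mul_one, ← cs.wordProd_append, ← cs.wordProd_append]
        exact hw' _ _ (by decide)
      · rw [hwu, length_word, length_word, cs.length_one]; decide
      · exact finPar_word cs _ {i | i ∈ ((0, false) :: l1 : List G)} (fun _ h => h)
          (show ∀ i ∈ ((0, false) :: l1 : List G), ∀ k ∈ ((0, false) :: l1 : List G),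
            i.1 = k.1 → i = k by decide)
      · rw [← cs.wordProd_append]
        exact hw' _ _ (by decide)
      · rw [hw, length_word, length_word]; decide
      · rw [mul_one, ← cs.wordProd_append]; rfl
      · rw [hu, length_word, length_word, cs.length_one]; decide
      · rw [length_word, cs.length_one]; decide
    · rw [a_wu hT hb hK, a_w hT hb hK]
    · intro v₀₁ v₀₂ v₀₃ h
      exact mu_zero hT hb hK v₀₂ (K8_mid h)

end Pool.Agent.Results.MP_fcc599_al.MuVanishes
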